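import Pool.Agent.Q83.BL.Stm

/-! # Project BL: INT -/

set_option autoImplicit false
set_option linter.unusedSectionVars false

open MeasureTheory Complex Filter Topology
open scoped ENNReal

noncomputable section

namespace Pool.Agent.Q137.BL

open Q83.BL

variable {Ω : Type} [MeasurableSpace Ω] {μ : Measure Ω} [IsProbabilityMeasure μ]

lemma norm_sq_lp (f : Lp ℂ 2 μ) : ‖f‖ ^ 2 = ∫ z, ‖f z‖ ^ 2 ∂μ := by
  have h1 : inner ℂ f f = ∫ z, inner ℂ (f z) (f z) ∂μ := L2.inner_def f f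
  rw [inner_self_eq_norm_sq_to_K] at h1
  have h2 : ∀ z, inner ℂ (f z) (f z) = ((‖f z‖ ^ 2 : ℝ) : ℂ) := by
    intro z
    rw [inner_self_eq_norm_sq_to_K]
    norm_cast
  simp only [h2] at h1
  rw [integral_complex_ofReal] at h1
  have h3 : ((‖f‖ ^ 2 : ℝ) : ℂ) = ((∫ z, ‖f z‖ ^ 2 ∂μ : ℝ) : ℂ) := by
    rw [← h1]
    push_cast
    rfl
  exact Complex.ofReal_injective h3

/-- a subsequence of an `L^2` convergent sequence converges almost everywhere -/
lemma subseq_ae {f : ℕ → Lp ℂ 2 μ} {g : Lp ℂ 2 μ} (h : Tendsto f atTop (𝓝 g)) :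
    ∃ ns : ℕ → ℕ, StrictMono ns ∧ ∀ᵐ z ∂μ, Tendsto (fun i => f (ns i) z) atTop (𝓝 (g z)) :=
  (tendstoInMeasure_of_tendsto_Lp h).exists_seq_tendsto_ae

/-- weighted composition operators: agreement on a dense set is enough -/
lemma wco (W : Lp ℂ 2 μ →L[ℂ] Lp ℂ 2 μ) (τ : Ω → Ω) (hτ : MeasurePreserving τ μ μ) (A : Ω → ℂ)
    {G : Type} (b : G → Lp ℂ 2 μ) (hb : (Submodule.span ℂ (Set.range b)).topologicalClosure = ⊤)
    (h : ∀ n, W (b n) =ᵐ[μ] fun z => b n (τ z) * A z) (m : Lp ℂ 2 μ) :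
    W m =ᵐ[μ] fun z => m (τ z) * A z := by
  have hcomp : ∀ {p q : Ω → ℂ}, p =ᵐ[μ] q → ∀ᵐ z ∂μ, p (τ z) = q (τ z) := fun hpq =>
    hτ.quasiMeasurePreserving.ae hpq
  obtain ⟨S, hS⟩ : ∃ S : Submodule ℂ (Lp ℂ 2 μ), ∀ m, m ∈ S ↔
      W m =ᵐ[μ] fun z => m (τ z) * A z := by
    refine ⟨{ carrier := {m | W m =ᵐ[μ] fun z => m (τ z) * A z}
              add_mem' := ?_
              zero_mem' := ?_
              smul_mem' := ?_ }, fun m => Iff.rfl⟩
    · intro x y hx hy
      show W (x + y) =ᵐ[μ] fun z => (x + y : Lp ℂ 2 μ) (τ z) * A z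
      rw [map_add]
      filter_upwards [Lp.coeFn_add (W x) (W y), hx, hy, hcomp (Lp.coeFn_add x y)] with z h1 h2 h3 h4
      rw [h1, h4, Pi.add_apply, Pi.add_apply, h2, h3]
      ring
    · show W 0 =ᵐ[μ] fun z => (0 : Lp ℂ 2 μ) (τ z) * A z
      rw [map_zero]
      filter_upwards [Lp.coeFn_zero ℂ 2 μ, hcomp (Lp.coeFn_zero ℂ 2 μ)] with z h1 h2
      rw [h1, h2]
      simp
    · intro c x hx
      show W (c • x) =ᵐ[μ] fun z => (c • x : Lp ℂ 2 μ) (τ z) * A z
      rw [map_smul]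
      filter_upwards [Lp.coeFn_smul c (W x), hx, hcomp (Lp.coeFn_smul c x)] with z h1 h2 h3
      rw [h1, h3, Pi.smul_apply, Pi.smul_apply, h2, smul_eq_mul, smul_eq_mul]
      ring
  have hclosed : IsClosed (S : Set (Lp ℂ 2 μ)) := by
    refine IsSeqClosed.isClosed fun f g hf hg => ?_
    show g ∈ S
    rw [hS]
    obtain ⟨ns, hns, h1⟩ := subseq_ae hg
    have h2 : Tendsto (fun i => W (f (ns i))) atTop (𝓝 (W g)) :=
      (W.continuous.tendsto g).comp (hg.comp hns.tendsto_atTop)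
    obtain ⟨ms, hms, h3⟩ := subseq_ae h2
    have h4 : ∀ᵐ z ∂μ, ∀ i, W (f (ns (ms i))) z = f (ns (ms i)) (τ z) * A z := by
      rw [ae_all_iff]
      intro i
      exact (hS _).1 (hf (ns (ms i)))
    filter_upwards [h3, hτ.quasiMeasurePreserving.ae h1, h4] with z a1 a2 a3
    have a4 : Tendsto (fun i => f (ns (ms i)) (τ z) * A z) atTop (𝓝 (g (τ z) * A z)) :=
      (a2.comp hms.tendsto_atTop).mul_const _
    exact tendsto_nhds_unique (a1.congr fun i => a3 i) a4
  have hle : Submodule.span ℂ (Set.range b) ≤ S := by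
    rw [Submodule.span_le]
    rintro _ ⟨n, rfl⟩
    exact (hS _).2 (h n)
  have htop : S = ⊤ := by
    have h5 : (Submodule.span ℂ (Set.range b)).topologicalClosure ≤ S :=
      Submodule.topologicalClosure_minimal _ hle hclosed
    rw [hb] at h5
    exact top_le_iff.1 h5
  exact (hS m).1 (by rw [htop]; exact Submodule.mem_top)

section pic

variable {G H : Type} [AddCommGroup G] [NormedAddCommGroup H] [InnerProductSpace ℂ H]

lemma T_zero (P : Pic Ω G H μ) (x : H) : P.T 0 x = x := by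
  have h1 : P.T 0 (P.T 0 x - x) = 0 := by
    rw [map_sub, ← P.T_add, add_zero, sub_self]
  have h2 := P.norm_T 0 (P.T 0 x - x)
  rw [h1, norm_zero] at h2
  exact sub_eq_zero.1 (norm_eq_zero.1 h2.symm)

lemma e_zero (P : Pic Ω G H μ) (z : Ω) : P.e 0 z = 1 := by
  have h1 := P.add_e 0 0 z
  rw [add_zero] at h1
  have h2 : P.e 0 z ≠ 0 := by
    intro h
    have := P.norm_e 0 z
    rw [h, norm_zero] at this
    norm_num at this
  have h3 : P.e 0 z * 1 = P.e 0 z * P.e 0 z := by rw [mul_one]; exact h1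
  exact (mul_left_cancel₀ h2 h3).symm

lemma C_b0 (P : Pic Ω G H μ) : P.C (P.b 0) = P.g := by
  rw [P.C_b, T_zero]

/-- the family in the picture acts by multiplication -/
lemma T_pic (P : Pic Ω G H μ) (n : G) (f : Lp ℂ 2 μ) :
    P.C.symm (P.T n (P.C f)) =ᵐ[μ] fun z => f z * P.e n z := by
  have h := wco ((P.C.symm : H →L[ℂ] Lp ℂ 2 μ).comp ((P.T n).comp (P.C : Lp ℂ 2 μ →L[ℂ] H)))
    id (MeasurePreserving.id μ) (P.e n) (fun m => P.b m) P.b.dense_span ?_ f
  · exact h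
  · intro m
    show P.C.symm (P.T n (P.C (P.b m))) =ᵐ[μ] fun z => P.b m (id z) * P.e n z
    rw [P.C_b, ← P.T_add, ← P.C_b, ContinuousLinearEquiv.symm_apply_apply]
    filter_upwards [P.coe_b (n + m), P.coe_b m] with z h1 h2
    rw [h1, id, h2, P.add_e]
    ring

lemma int_one [CompleteSpace H] (P : Pic Ω G H μ) (U : H →L[ℂ] H) (χ : G → ℂ) (τ : Ω ≃ᵐ Ω)
    (hτ : MeasurePreserving τ μ μ) (he : ∀ n z, P.e n (τ z) = χ n * P.e n z)
    (hUT : ∀ n x, U (P.T n x) = χ n • P.T n (U x)) (m : Lp ℂ 2 μ) :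
    P.C.symm (U (P.C m)) =ᵐ[μ] fun z => m (τ z) * P.C.symm (U P.g) z := by
  have h := wco ((P.C.symm : H →L[ℂ] Lp ℂ 2 μ).comp (U.comp (P.C : Lp ℂ 2 μ →L[ℂ] H)))
    τ hτ (P.C.symm (U P.g)) (fun m => P.b m) P.b.dense_span ?_ m
  · exact h
  · intro n
    show P.C.symm (U (P.C (P.b n))) =ᵐ[μ] fun z => P.b n (τ z) * P.C.symm (U P.g) z
    rw [P.C_b, hUT, map_smul]
    have h1 := T_pic P n (P.C.symm (U P.g))
    rw [ContinuousLinearEquiv.apply_symm_apply] at h1
    filter_upwards [Lp.coeFn_smul (χ n) (P.C.symm (P.T n (U P.g))), h1,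
      hτ.quasiMeasurePreserving.ae (P.coe_b n)] with z a1 a2 a3
    rw [a1, Pi.smul_apply, a2, a3, he, smul_eq_mul]
    ring

end pic

/-- the indicator function as an element of `L^2` -/
lemma ind_spec {S : Set Ω} (hS : MeasurableSet S) :
    (indicatorConstLp 2 hS (measure_ne_top μ S) (1 : ℂ) : Lp ℂ 2 μ) =ᵐ[μ]
      S.indicator fun _ => (1 : ℂ) := indicatorConstLp_coeFn

theorem t_INT : S_INT := by
  intro Ω G H _ μ _ _ _ _ _ P U χ τ hU hτ he hUT
  have key := int_one P U χ τ hτ he hUT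
  obtain ⟨A, hA⟩ : ∃ A : Lp ℂ 2 μ, A = P.C.symm (U P.g) := ⟨_, rfl⟩
  rw [← hA] at key ⊢
  have hAm : Measurable (A : Ω → ℂ) := (Lp.stronglyMeasurable A).measurable
  obtain ⟨K, hK⟩ : ∃ K : ℝ, K = ‖(P.C : Lp ℂ 2 μ →L[ℂ] H)‖ * ‖(P.C.symm : H →L[ℂ] Lp ℂ 2 μ)‖ :=
    ⟨_, rfl⟩
  have hK0 : 0 ≤ K := by rw [hK]; positivity
  have hW : ∀ m : Lp ℂ 2 μ, ‖P.C.symm (U (P.C m))‖ ≤ K * ‖m‖ := by
    intro m
    have h1 := (P.C.symm : H →L[ℂ] Lp ℂ 2 μ).le_opNorm (U (P.C m))
    have h2 := (P.C : Lp ℂ 2 μ →L[ℂ] H).le_opNorm m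
    have h3 : ‖P.C m‖ ≤ ‖(P.C : Lp ℂ 2 μ →L[ℂ] H)‖ * ‖m‖ := h2
    have h4 : ‖P.C.symm (U (P.C m))‖ ≤ ‖(P.C.symm : H →L[ℂ] Lp ℂ 2 μ)‖ * ‖U (P.C m)‖ := h1
    rw [hU] at h4
    refine h4.trans ((mul_le_mul_of_nonneg_left h3 (norm_nonneg _)).trans (le_of_eq ?_))
    rw [hK]
    ring
  rw [← hK]
  refine ⟨key, ?_, ?_⟩
  · -- boundedness
    obtain ⟨E, hE⟩ : ∃ E : Set Ω, E = {z | K < ‖A z‖} := ⟨_, rfl⟩
    have hEm : MeasurableSet E := by
      rw [hE]
      exact measurableSet_lt measurable_const hAm.norm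
    have hSm : MeasurableSet (τ.symm ⁻¹' E) := τ.symm.measurable hEm
    obtain ⟨m, hm⟩ : ∃ m : Lp ℂ 2 μ, m = indicatorConstLp 2 hSm (measure_ne_top μ _) (1 : ℂ) :=
      ⟨_, rfl⟩
    have hm1 : m =ᵐ[μ] (τ.symm ⁻¹' E).indicator fun _ => (1 : ℂ) := by
      rw [hm]
      exact ind_spec hSm
    have h1 : P.C.symm (U (P.C m)) =ᵐ[μ] fun z => E.indicator (fun _ => (1 : ℂ)) z * A z := by
      filter_upwards [key m, hτ.quasiMeasurePreserving.ae hm1] with z a1 a2
      rw [a1, a2]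
      congr 1
      by_cases hz : z ∈ E
      · rw [Set.indicator_of_mem hz, Set.indicator_of_mem]
        show τ.symm (τ z) ∈ E
        rw [MeasurableEquiv.symm_apply_apply]
        exact hz
      · rw [Set.indicator_of_notMem hz, Set.indicator_of_notMem]
        show ¬ τ.symm (τ z) ∈ E
        rw [MeasurableEquiv.symm_apply_apply]
        exact hz
    have h2 : ‖P.C.symm (U (P.C m))‖ ^ 2 ≤ K ^ 2 * ‖m‖ ^ 2 := by
      rw [← mul_pow]
      exact pow_le_pow_left₀ (norm_nonneg _) (hW m) 2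
    rw [norm_sq_lp, norm_sq_lp] at h2
    have hint : Integrable (fun z => ‖A z‖ ^ 2) μ := by
      have := (memLp_two_iff_integrable_sq_norm (Lp.aestronglyMeasurable A)).1 (Lp.memLp A)
      exact this
    have h3 : ∫ z, ‖P.C.symm (U (P.C m)) z‖ ^ 2 ∂μ = ∫ z, E.indicator (fun z => ‖A z‖ ^ 2) z ∂μ := by
      refine integral_congr_ae ?_
      filter_upwards [h1] with z a1
      rw [a1]
      by_cases hz : z ∈ E
      · rw [Set.indicator_of_mem hz, Set.indicator_of_mem hz, one_mul]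
      · rw [Set.indicator_of_notMem hz, Set.indicator_of_notMem hz, zero_mul, norm_zero]
        norm_num
    have h4 : ∫ z, ‖m z‖ ^ 2 ∂μ = ∫ z, E.indicator (fun _ => (1 : ℝ)) z ∂μ := by
      have h5 : ∫ z, ‖m z‖ ^ 2 ∂μ = ∫ z, (fun w => ‖m w‖ ^ 2) (τ z) ∂μ :=
        (hτ.integral_comp' (fun w => ‖m w‖ ^ 2)).symm
      rw [h5]
      refine integral_congr_ae ?_
      filter_upwards [hτ.quasiMeasurePreserving.ae hm1] with z a2
      show ‖m (τ z)‖ ^ 2 = _
      rw [a2]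
      by_cases hz : z ∈ E
      · rw [Set.indicator_of_mem hz, Set.indicator_of_mem]
        · norm_num
        · show τ.symm (τ z) ∈ E
          rw [MeasurableEquiv.symm_apply_apply]
          exact hz
      · rw [Set.indicator_of_notMem hz, Set.indicator_of_notMem]
        · norm_num
        · show ¬ τ.symm (τ z) ∈ E
          rw [MeasurableEquiv.symm_apply_apply]
          exact hz
    rw [h3, h4, ← integral_const_mul] at h2
    have i1 : Integrable (fun z => E.indicator (fun z => ‖A z‖ ^ 2) z) μ := hint.indicator hEm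
    have i2 : Integrable (fun z => K ^ 2 * E.indicator (fun _ => (1 : ℝ)) z) μ :=
      ((integrable_const (1 : ℝ)).indicator hEm).const_mul _
    have h6 : ∫ z, (E.indicator (fun z => ‖A z‖ ^ 2) z - K ^ 2 * E.indicator (fun _ => (1 : ℝ)) z) ∂μ
        ≤ 0 := by
      rw [integral_sub i1 i2]
      linarith
    have h7 : ∀ z, 0 ≤ E.indicator (fun z => ‖A z‖ ^ 2) z - K ^ 2 * E.indicator (fun _ => (1 : ℝ)) z := by
      intro z
      by_cases hz : z ∈ E
      · rw [Set.indicator_of_mem hz, Set.indicator_of_mem hz]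
        have hz' : K < ‖A z‖ := by rw [hE] at hz; exact hz
        nlinarith
      · rw [Set.indicator_of_notMem hz, Set.indicator_of_notMem hz]
        simp
    have h8 := (integral_eq_zero_iff_of_nonneg h7 (i1.sub i2)).1
      (le_antisymm h6 (integral_nonneg h7))
    filter_upwards [h8] with z hz
    by_contra hcon
    push Not at hcon
    have hzE : z ∈ E := by rw [hE]; exact hcon
    have h9 : E.indicator (fun z => ‖A z‖ ^ 2) z - K ^ 2 * E.indicator (fun _ => (1 : ℝ)) z = 0 := hz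
    rw [Set.indicator_of_mem hzE, Set.indicator_of_mem hzE] at h9
    nlinarith
  · -- nonvanishing
    obtain ⟨E, hE⟩ : ∃ E : Set Ω, E = {z | A z = 0} := ⟨_, rfl⟩
    have hEm : MeasurableSet E := by
      rw [hE]
      exact measurableSet_eq_fun hAm measurable_const
    have hSm : MeasurableSet (τ.symm ⁻¹' E) := τ.symm.measurable hEm
    obtain ⟨m, hm⟩ : ∃ m : Lp ℂ 2 μ, m = indicatorConstLp 2 hSm (measure_ne_top μ _) (1 : ℂ) :=
      ⟨_, rfl⟩
    have hm1 : m =ᵐ[μ] (τ.symm ⁻¹' E).indicator fun _ => (1 : ℂ) := by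
      rw [hm]
      exact ind_spec hSm
    have h1 : P.C.symm (U (P.C m)) = 0 := by
      apply Lp.ext
      filter_upwards [key m, hτ.quasiMeasurePreserving.ae hm1, Lp.coeFn_zero ℂ 2 μ] with z a1 a2 a3
      rw [a1, a3, a2]
      by_cases hz : z ∈ E
      · have hz' : A z = 0 := by rw [hE] at hz; exact hz
        rw [hz', mul_zero]
        rfl
      · rw [Set.indicator_of_notMem, zero_mul]
        · rfl
        · show ¬ τ.symm (τ z) ∈ E
          rw [MeasurableEquiv.symm_apply_apply]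
          exact hz
    have h2 : U (P.C m) = 0 := by
      have := congrArg P.C h1
      rwa [ContinuousLinearEquiv.apply_symm_apply, map_zero] at this
    have h3 : P.C m = 0 := by
      have := hU (P.C m)
      rw [h2, norm_zero] at this
      exact norm_eq_zero.1 this.symm
    have h4 : m = 0 := by
      have := congrArg P.C.symm h3
      rwa [ContinuousLinearEquiv.symm_apply_apply, map_zero] at this
    have h5 : ∀ᵐ z ∂μ, m z = 0 := by
      rw [h4]
      exact Lp.coeFn_zero ℂ 2 μ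
    filter_upwards [hτ.quasiMeasurePreserving.ae hm1, hτ.quasiMeasurePreserving.ae h5] with z a2 a5
    intro hz
    have hzE : z ∈ E := by rw [hE]; exact hz
    rw [a5, Set.indicator_of_mem] at a2
    · exact one_ne_zero a2.symm
    · show τ.symm (τ z) ∈ E
      rw [MeasurableEquiv.symm_apply_apply]
      exact hzE

end Pool.Agent.Q137.BL
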