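import Pool.Agent.Q137.BL.INT

/-! # Project BL: LIP -/

set_option autoImplicit false
set_option linter.unusedSectionVars false

open MeasureTheory Complex Filter Topology
open scoped ENNReal

noncomputable section

namespace Pool.Agent.Q137.BL

open Q83.BL

variable {Ω : Type} [MeasurableSpace Ω] {μ : Measure Ω} [IsProbabilityMeasure μ]

lemma bdd_lim {f : ℕ → Lp ℂ 2 μ} {g : Lp ℂ 2 μ} (h : Tendsto f atTop (𝓝 g)) (M : ℝ)
    (hf : ∀ n, ∀ᵐ z ∂μ, ‖f n z‖ ≤ M) : ∀ᵐ z ∂μ, ‖g z‖ ≤ M := by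
  obtain ⟨ns, _, h1⟩ := subseq_ae h
  have h2 : ∀ᵐ z ∂μ, ∀ n, ‖f n z‖ ≤ M := ae_all_iff.2 hf
  filter_upwards [h1, h2] with z a1 a2
  exact le_of_tendsto a1.norm (Eventually.of_forall fun i => a2 (ns i))

lemma bdd_sum {ι : Type} (s : Finset ι) (f : ι → Lp ℂ 2 μ) (M : ι → ℝ)
    (hf : ∀ i ∈ s, ∀ᵐ z ∂μ, ‖f i z‖ ≤ M i) : ∀ᵐ z ∂μ, ‖(∑ i ∈ s, f i : Lp ℂ 2 μ) z‖ ≤ ∑ i ∈ s, M i := by
  classical
  induction s using Finset.induction_on with
  | empty =>
    filter_upwards [Lp.coeFn_zero ℂ 2 μ] with z hz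
    simp only [Finset.sum_empty]
    rw [hz]
    simp
  | insert a s ha ih =>
    have h1 := ih fun i hi => hf i (Finset.mem_insert_of_mem hi)
    have h2 := hf a (Finset.mem_insert_self _ _)
    rw [Finset.sum_insert ha, Finset.sum_insert ha]
    filter_upwards [h1, h2, Lp.coeFn_add (f a) (∑ i ∈ s, f i)] with z a1 a2 a3
    rw [a3, Pi.add_apply]
    exact (norm_add_le _ _).trans (add_le_add a2 a1)

lemma bdd_smul (c : ℂ) (f : Lp ℂ 2 μ) (M : ℝ) (hf : ∀ᵐ z ∂μ, ‖f z‖ ≤ M) :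
    ∀ᵐ z ∂μ, ‖(c • f : Lp ℂ 2 μ) z‖ ≤ ‖c‖ * M := by
  filter_upwards [hf, Lp.coeFn_smul c f] with z a1 a2
  rw [a2, Pi.smul_apply, smul_eq_mul, norm_mul]
  exact mul_le_mul_of_nonneg_left a1 (norm_nonneg _)

theorem t_LIP : S_LIP := by
  intro _ Ω G H _ μ _ _ _ _ _ P U χ τ hU hUadd hτ he hUT F c θ D hc hF hD
  obtain ⟨K, hK⟩ : ∃ K : ℝ, K = ‖(P.C : Lp ℂ 2 μ →L[ℂ] H)‖ * ‖(P.C.symm : H →L[ℂ] Lp ℂ 2 μ)‖ :=
    ⟨_, rfl⟩
  have hK0 : 0 ≤ K := by rw [hK]; positivity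
  have hint := fun s => t_INT Ω G H _ μ inferInstance _ _ _ inferInstance P (U s) (χ s) (τ s) (hU s) (hτ s) (he s) (hUT s)
  have hb : ∀ s, ∀ᵐ z ∂μ, ‖P.C.symm (U s P.g) z‖ ≤ K := fun s => by
    rw [hK]
    exact (hint s).2.1
  -- the derivative is bounded
  obtain ⟨M, hM⟩ : ∃ M : ℝ, M = K * ∑' j, ‖c j‖ := ⟨_, rfl⟩
  have hM0 : 0 ≤ M := by rw [hM]; exact mul_nonneg hK0 (tsum_nonneg fun _ => norm_nonneg _)
  have hV : ∀ᵐ z ∂μ, ‖P.C.symm F z‖ ≤ M := by
    have h1 : Tendsto (fun n => P.C.symm (∑ j ∈ Finset.range n, c j • U (θ j) P.g)) atTop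
        (𝓝 (P.C.symm F)) := (P.C.symm.continuous.tendsto F).comp hF.tendsto_sum_nat
    refine bdd_lim h1 M fun n => ?_
    rw [map_sum]
    have h2 := bdd_sum (Finset.range n) (fun j => P.C.symm (c j • U (θ j) P.g))
      (fun j => ‖c j‖ * K) (fun j _ => by
        rw [map_smul]
        exact bdd_smul (c j) _ K (hb (θ j)))
    filter_upwards [h2] with z hz
    refine hz.trans ?_
    rw [← Finset.sum_mul, mul_comm, hM]
    exact mul_le_mul_of_nonneg_left (hc.sum_le_tsum _ fun _ _ => norm_nonneg _) hK0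
  have hVt : ∀ t, ∀ᵐ z ∂μ, ‖P.C.symm (U t F) z‖ ≤ M * K := by
    intro t
    have h1 := (hint t).1 (P.C.symm F)
    rw [ContinuousLinearEquiv.apply_symm_apply] at h1
    filter_upwards [h1, hb t, (hτ t).quasiMeasurePreserving.ae hV] with z a1 a2 a3
    rw [a1, norm_mul]
    exact mul_le_mul a3 a2 (norm_nonneg _) hM0
  refine ⟨M * K, fun s => ?_⟩
  -- telescoping
  have htel : ∀ (t : ℝ) (n : ℕ), U ((n : ℝ) * t) P.g - P.g =
      ∑ i ∈ Finset.range n, U ((i : ℝ) * t) (U t P.g - P.g) := by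
    intro t n
    induction n with
    | zero =>
      have h0 : U 0 P.g = P.g := by
        have h1 : U 0 (U 0 P.g - P.g) = 0 := by
          rw [map_sub, ← hUadd, add_zero, sub_self]
        have h2 := hU 0 (U 0 P.g - P.g)
        rw [h1, norm_zero] at h2
        exact sub_eq_zero.1 (norm_eq_zero.1 h2.symm)
      simp [h0]
    | succ n ih =>
      rw [Finset.sum_range_succ, ← ih, map_sub, ← hUadd]
      push_cast
      rw [show ((n : ℝ) + 1) * t = (n : ℝ) * t + t by ring]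
      abel
  obtain ⟨f, hf⟩ : ∃ f : ℕ → Lp ℂ 2 μ, ∀ n, f n = P.C.symm
      (∑ i ∈ Finset.range (n + 1), U ((i : ℝ) * (s / (n + 1 : ℝ))) (((s / (n + 1 : ℝ) : ℝ) : ℂ) • F)) :=
    ⟨_, fun _ => rfl⟩
  have hfb : ∀ n, ∀ᵐ z ∂μ, ‖f n z‖ ≤ M * K * |s| := by
    intro n
    rw [hf, map_sum]
    have hn : (0 : ℝ) < n + 1 := by positivity
    have h2 := bdd_sum (Finset.range (n + 1)) (fun i : ℕ => P.C.symm
      (U ((i : ℝ) * (s / (n + 1 : ℝ))) (((s / (n + 1 : ℝ) : ℝ) : ℂ) • F)))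
      (fun _ => |s| / (n + 1) * (M * K)) (fun i _ => by
        rw [map_smul, map_smul]
        have h3 := bdd_smul (((s / (n + 1 : ℝ) : ℝ)) : ℂ)
          (P.C.symm (U ((i : ℝ) * (s / (n + 1 : ℝ))) F)) (M * K) (hVt _)
        rw [Complex.norm_real, Real.norm_eq_abs, abs_div, abs_of_pos hn] at h3
        exact h3)
    filter_upwards [h2] with z hz
    refine hz.trans (le_of_eq ?_)
    rw [Finset.sum_const, Finset.card_range, nsmul_eq_mul]
    push_cast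
    field_simp
  have hlim : Tendsto f atTop (𝓝 (P.C.symm (U s P.g) - P.C.symm P.g)) := by
    have hD0 : 0 ≤ D := by
      have := hD 1
      rw [one_pow, mul_one] at this
      exact (norm_nonneg _).trans this
    rw [tendsto_iff_norm_sub_tendsto_zero]
    have h1 : ∀ n : ℕ, ‖f n - (P.C.symm (U s P.g) - P.C.symm P.g)‖ ≤
        ‖(P.C.symm : H →L[ℂ] Lp ℂ 2 μ)‖ * (D * s ^ 2) * (1 / ((n : ℝ) + 1)) := by
      intro n
      have hn : (0 : ℝ) < n + 1 := by positivity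
      obtain ⟨t, ht⟩ : ∃ t : ℝ, t = s / (n + 1 : ℝ) := ⟨_, rfl⟩
      have hst : s = ((n + 1 : ℕ) : ℝ) * t := by
        rw [ht]
        push_cast
        field_simp
      have h2 : U s P.g - P.g = ∑ i ∈ Finset.range (n + 1), U ((i : ℝ) * t) (U t P.g - P.g) := by
        conv_lhs => rw [hst]
        exact htel t (n + 1)
      rw [← map_sub, norm_sub_rev, hf, ← map_sub, ← ht, h2, ← Finset.sum_sub_distrib]
      refine ((P.C.symm : H →L[ℂ] Lp ℂ 2 μ).le_opNorm _).trans ?_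
      rw [mul_assoc]
      refine mul_le_mul_of_nonneg_left ?_ (norm_nonneg _)
      refine (norm_sum_le _ _).trans ?_
      have h3 : ∀ i ∈ Finset.range (n + 1), ‖U ((i : ℝ) * t) (U t P.g - P.g) -
          U ((i : ℝ) * t) ((t : ℂ) • F)‖ ≤ D * t ^ 2 := by
        intro i _
        rw [← map_sub, hU]
        exact hD t
      refine (Finset.sum_le_sum h3).trans (le_of_eq ?_)
      rw [Finset.sum_const, Finset.card_range, nsmul_eq_mul, ht]
      push_cast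
      field_simp
    refine squeeze_zero (fun _ => norm_nonneg _) h1 ?_
    have h4 := tendsto_one_div_add_atTop_nhds_zero_nat (𝕜 := ℝ)
    have h5 := h4.const_mul (‖(P.C.symm : H →L[ℂ] Lp ℂ 2 μ)‖ * (D * s ^ 2))
    rw [mul_zero] at h5
    exact h5
  have h6 := bdd_lim hlim (M * K * |s|) hfb
  have h7 : P.C.symm P.g = P.b 0 := by
    rw [← C_b0, ContinuousLinearEquiv.symm_apply_apply]
  rw [h7] at h6
  filter_upwards [h6, Lp.coeFn_sub (P.C.symm (U s P.g)) (P.b 0), P.coe_b 0] with z a1 a2 a3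
  rw [a2, Pi.sub_apply, a3, e_zero] at a1
  exact a1

end Pool.Agent.Q137.BL
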