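import Pool.Agent.Q83.BL.Stm

/-! # Project BL: MOD -/

set_option autoImplicit false

open MeasureTheory Complex Filter Topology
open scoped ENNReal

noncomputable section

namespace Pool.Agent.Q137.BL

open Q83.BL

lemma norm_sq_lpg {Ω : Type} [MeasurableSpace Ω] {μ : Measure Ω} (f : Lp ℂ 2 μ) :
    ‖f‖ ^ 2 = ∫ z, ‖f z‖ ^ 2 ∂μ := by
  have h1 : inner ℂ f f = ∫ z, inner ℂ (f z) (f z) ∂μ := L2.inner_def f f
  rw [inner_self_eq_norm_sq_to_K] at h1
  have h2 : ∀ z, inner ℂ (f z) (f z) = ((‖f z‖ ^ 2 : ℝ) : ℂ) := by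
    intro z
    rw [inner_self_eq_norm_sq_to_K]
    norm_cast
  simp only [h2] at h1
  rw [integral_complex_ofReal] at h1
  have h3 : ((‖f‖ ^ 2 : ℝ) : ℂ) = ((∫ z, ‖f z‖ ^ 2 ∂μ : ℝ) : ℂ) := by
    rw [← h1]
    push_cast
    rfl
  exact Complex.ofReal_injective h3

/-- `exp (2 π i t)` -/
def ex (t : ℝ) : ℂ := exp (2 * Real.pi * I * (t : ℂ))

lemma ex_eq (t : ℝ) : ex t = exp (((2 * Real.pi * t : ℝ) : ℂ) * I) := by
  unfold ex
  congr 1
  push_cast
  ring

lemma norm_ex (t : ℝ) : ‖ex t‖ = 1 := by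
  rw [ex_eq, Complex.norm_exp_ofReal_mul_I]

lemma ex_add (s t : ℝ) : ex (s + t) = ex s * ex t := by
  unfold ex
  rw [← Complex.exp_add]
  congr 1
  push_cast
  ring

lemma norm_ex_sub_one (t : ℝ) : ‖ex t - 1‖ ≤ |2 * Real.pi * t| := by
  rw [ex_eq]
  have h := Real.norm_exp_I_mul_ofReal_sub_one_le (x := 2 * Real.pi * t)
  rw [mul_comm] at h
  exact h

lemma norm_ex_sub_one' (t : ℝ) : ‖ex t - 1‖ ≤ 2 := by
  have h := norm_sub_le (ex t) 1
  rw [norm_ex, norm_one] at h
  linarith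

variable {l : ℕ}

lemma tf_single (k : Fin l) (c : ℝ) (f : HH l) :
    tf 0 (EuclideanSpace.single k c) f =ᵐ[volume] fun x => ex (c * x k) * f x := by
  filter_upwards [coe_tf 0 (EuclideanSpace.single k c) f] with x hx
  rw [hx]
  unfold shift ex
  rw [sub_zero]
  congr 3
  have h1 : (∑ i, (EuclideanSpace.single k c : X l) i * x i) = c * x k := by
    simp
  rw [h1]

/-- the orbit -/
def um (k : Fin l) (s : ℝ) (f : HH l) : ℕ → HH l :=
  fun j => tf 0 (EuclideanSpace.single k ((j : ℝ) * s)) f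

lemma fd_single (k : Fin l) (s : ℝ) (f : HH l) (N : ℕ) : ∀ i : ℕ,
    ((fd N (um k s f) i : HH l) : X l → ℂ) =ᵐ[volume]
      fun x => ex ((i : ℝ) * s * x k) * (ex (s * x k) - 1) ^ N * f x := by
  induction N with
  | zero =>
    intro i
    filter_upwards [tf_single k ((i : ℝ) * s) f] with x hx
    show tf 0 (EuclideanSpace.single k ((i : ℝ) * s)) f x = _
    rw [hx, pow_zero, mul_one]
  | succ N ih =>
    intro i
    have h0 : fd (N + 1) (um k s f) i = fd N (um k s f) (i + 1) - fd N (um k s f) i := rfl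
    rw [h0]
    filter_upwards [Lp.coeFn_sub (fd N (um k s f) (i + 1)) (fd N (um k s f) i),
      ih (i + 1), ih i] with x h1 h2 h3
    rw [h1, Pi.sub_apply, h2, h3]
    have h4 : ex (((i + 1 : ℕ) : ℝ) * s * x k) = ex ((i : ℝ) * s * x k) * ex (s * x k) := by
      rw [← ex_add]
      congr 1
      push_cast
      ring
    rw [h4, pow_succ]
    ring

theorem t_MOD : S_MOD := by
  intro l k f p N hp hpN hint η hη
  -- the norm
  have hnorm : ∀ s : ℝ, ‖fd N (fun j : ℕ => tf 0 (EuclideanSpace.single k ((j : ℝ) * s)) f) 0‖ ^ 2 =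
      ∫ x : X l, ‖ex (s * x k) - 1‖ ^ (2 * N) * ‖f x‖ ^ 2 := by
    intro s
    show ‖fd N (um k s f) 0‖ ^ 2 = _
    rw [norm_sq_lpg]
    refine integral_congr_ae ?_
    filter_upwards [fd_single k s f N 0] with x hx
    rw [hx, norm_mul, norm_mul, norm_ex, one_mul, norm_pow, mul_pow, ← pow_mul, mul_comm N 2]
  -- the pointwise bound
  have hbd : ∀ s w : ℝ, s ≠ 0 → |s| ^ (-p) * ‖ex (s * w) - 1‖ ^ (2 * N) ≤
      2 ^ (2 * N) * (2 * Real.pi) ^ p * |w| ^ p := by
    intro s w hs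
    have hs0 : 0 < |s| := abs_pos.2 hs
    obtain ⟨y, hy⟩ : ∃ y : ℝ, y = |2 * Real.pi * (s * w)| := ⟨_, rfl⟩
    have hy0 : 0 ≤ y := by rw [hy]; exact abs_nonneg _
    have h1 : ‖ex (s * w) - 1‖ ≤ 2 * min 1 y := by
      rcases le_total 1 y with h | h
      · rw [min_eq_left h]
        linarith [norm_ex_sub_one' (s * w)]
      · rw [min_eq_right h]
        have := norm_ex_sub_one (s * w)
        rw [← hy] at this
        linarith
    have h2 : ‖ex (s * w) - 1‖ ^ (2 * N) ≤ 2 ^ (2 * N) * (min 1 y) ^ (2 * N) := by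
      rw [← mul_pow]
      exact pow_le_pow_left₀ (norm_nonneg _) h1 _
    have hm0 : 0 ≤ min 1 y := le_min zero_le_one hy0
    have h3 : (min 1 y) ^ (2 * N) ≤ y ^ p := by
      have h4 : (min 1 y) ^ (2 * N) = (min 1 y) ^ ((2 * N : ℕ) : ℝ) := (Real.rpow_natCast _ _).symm
      rw [h4]
      have h5 : (min 1 y) ^ ((2 * N : ℕ) : ℝ) ≤ (min 1 y) ^ p := by
        refine Real.rpow_le_rpow_of_exponent_ge' hm0 (min_le_left _ _) hp.le ?_
        push_cast
        exact hpN.le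
      exact h5.trans (Real.rpow_le_rpow hm0 (min_le_right _ _) hp.le)
    have h6 : y ^ p = (2 * Real.pi) ^ p * |s| ^ p * |w| ^ p := by
      have e1 : |2 * Real.pi * (s * w)| = 2 * Real.pi * (|s| * |w|) := by
        rw [abs_mul (2 * Real.pi) (s * w), abs_mul s w,
          abs_of_pos (by positivity : 0 < 2 * Real.pi)]
      rw [hy, e1, Real.mul_rpow (x := 2 * Real.pi) (y := |s| * |w|) (by positivity) (by positivity),
        Real.mul_rpow (x := |s|) (y := |w|) (by positivity) (by positivity)]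
      ring
    have h7 : |s| ^ (-p) * |s| ^ p = 1 := by
      rw [← Real.rpow_add hs0]
      simp
    calc |s| ^ (-p) * ‖ex (s * w) - 1‖ ^ (2 * N)
        ≤ |s| ^ (-p) * (2 ^ (2 * N) * ((2 * Real.pi) ^ p * |s| ^ p * |w| ^ p)) := by
          refine mul_le_mul_of_nonneg_left ?_ (by positivity)
          rw [← h6]
          exact h2.trans (mul_le_mul_of_nonneg_left h3 (by positivity))
      _ = (|s| ^ (-p) * |s| ^ p) * (2 ^ (2 * N) * (2 * Real.pi) ^ p * |w| ^ p) := by ring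
      _ = _ := by rw [h7, one_mul]
  -- the pointwise limit
  have hptw : ∀ w : ℝ, Tendsto (fun s : ℝ => |s| ^ (-p) * ‖ex (s * w) - 1‖ ^ (2 * N)) (𝓝[≠] 0)
      (𝓝 0) := by
    intro w
    have h1 : Tendsto (fun s : ℝ => (|2 * Real.pi * w|) ^ (2 * N) * |s| ^ ((2 * N : ℕ) - p : ℝ))
        (𝓝[≠] 0) (𝓝 0) := by
      have h2 : Tendsto (fun s : ℝ => |s|) (𝓝[≠] 0) (𝓝 0) := by
        have := (continuous_abs (G := ℝ)).tendsto (0 : ℝ)
        rw [abs_zero] at this
        exact this.mono_left nhdsWithin_le_nhds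
      have h3 : Tendsto (fun s : ℝ => |s| ^ ((2 * N : ℕ) - p : ℝ)) (𝓝[≠] 0) (𝓝 0) := by
        have h4 : 0 < ((2 * N : ℕ) - p : ℝ) := by
          push_cast
          linarith
        have h5 := (Real.continuousAt_rpow_const 0 ((2 * N : ℕ) - p : ℝ) (Or.inr h4.le)).tendsto
        rw [Real.zero_rpow h4.ne'] at h5
        exact h5.comp h2
      have h6 := h3.const_mul ((|2 * Real.pi * w|) ^ (2 * N))
      rw [mul_zero] at h6
      exact h6
    refine squeeze_zero' (Eventually.of_forall fun s => by positivity) ?_ h1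
    filter_upwards [self_mem_nhdsWithin] with s hs
    have hs0 : 0 < |s| := abs_pos.2 hs
    have h2 : ‖ex (s * w) - 1‖ ^ (2 * N) ≤ (|2 * Real.pi * w| * |s|) ^ (2 * N) := by
      refine pow_le_pow_left₀ (norm_nonneg _) ?_ _
      refine (norm_ex_sub_one (s * w)).trans (le_of_eq ?_)
      rw [← abs_mul]
      congr 1
      ring
    refine (mul_le_mul_of_nonneg_left h2 (by positivity)).trans (le_of_eq ?_)
    rw [mul_pow, Real.rpow_sub hs0, Real.rpow_natCast, Real.rpow_neg hs0.le]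
    field_simp
  -- dominated convergence
  have hmeas : ∀ s : ℝ, AEStronglyMeasurable
      (fun x : X l => |s| ^ (-p) * ‖ex (s * x k) - 1‖ ^ (2 * N) * ‖f x‖ ^ 2) volume := by
    intro s
    have h1 : Measurable fun x : X l => |s| ^ (-p) * ‖ex (s * x k) - 1‖ ^ (2 * N) := by
      unfold ex
      fun_prop
    exact h1.aestronglyMeasurable.mul ((Lp.aestronglyMeasurable f).norm.pow 2)
  have hlim : Tendsto (fun s : ℝ => ∫ x : X l, |s| ^ (-p) * ‖ex (s * x k) - 1‖ ^ (2 * N) *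
      ‖f x‖ ^ 2) (𝓝[≠] 0) (𝓝 (∫ _ : X l, (0 : ℝ))) := by
    refine tendsto_integral_filter_of_dominated_convergence
      (fun x : X l => 2 ^ (2 * N) * (2 * Real.pi) ^ p * (|x k| ^ p * ‖f x‖ ^ 2))
      (Eventually.of_forall hmeas) ?_ (hint.const_mul _) ?_
    · filter_upwards [self_mem_nhdsWithin] with s hs
      refine Eventually.of_forall fun x => ?_
      rw [Real.norm_eq_abs, abs_of_nonneg (by positivity)]
      have := mul_le_mul_of_nonneg_right (hbd s (x k) hs) (sq_nonneg ‖f x‖)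
      refine this.trans (le_of_eq ?_)
      ring
    · refine Eventually.of_forall fun x => ?_
      have := (hptw (x k)).mul_const (‖f x‖ ^ 2)
      rw [zero_mul] at this
      exact this
  rw [integral_zero] at hlim
  have hev := (tendsto_order.1 hlim).2 η hη
  rw [Filter.Eventually, Metric.mem_nhdsWithin_iff] at hev
  obtain ⟨s₀, hs₀, hball⟩ := hev
  refine ⟨s₀, hs₀, fun s hs hs2 => ?_⟩
  have hs' : s ≠ 0 := abs_pos.1 hs
  have h1 : ∫ x : X l, |s| ^ (-p) * ‖ex (s * x k) - 1‖ ^ (2 * N) * ‖f x‖ ^ 2 < η := by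
    refine hball ⟨?_, hs'⟩
    rw [Metric.mem_ball, Real.dist_eq, sub_zero]
    exact hs2
  rw [hnorm]
  have h2 : ∫ x : X l, |s| ^ (-p) * ‖ex (s * x k) - 1‖ ^ (2 * N) * ‖f x‖ ^ 2 =
      |s| ^ (-p) * ∫ x : X l, ‖ex (s * x k) - 1‖ ^ (2 * N) * ‖f x‖ ^ 2 := by
    rw [← integral_const_mul]
    refine integral_congr_ae (Eventually.of_forall fun x => ?_)
    simp only
    ring
  rw [h2] at h1
  have h3 : |s| ^ (-p) * |s| ^ p = 1 := by
    rw [← Real.rpow_add hs]
    simp
  have h4 : 0 < |s| ^ p := Real.rpow_pos_of_pos hs p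
  have h5 := mul_le_mul_of_nonneg_right h1.le h4.le
  refine le_trans (le_of_eq ?_) h5
  rw [mul_right_comm, h3, one_mul]

end Pool.Agent.Q137.BL
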