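import Pool.Agent.Q83.BL.Stm

/-! # Project BL: RIE -/

set_option autoImplicit false

open MeasureTheory Complex

noncomputable section

namespace Pool.Agent.Q137.BL

open Q83.BL

lemma dense_lc {ι E : Type} [NormedAddCommGroup E] [InnerProductSpace ℂ E] (v : ι → E)
    (h : (Submodule.span ℂ (Set.range v)).topologicalClosure = ⊤) :
    DenseRange (Finsupp.linearCombination ℂ v) := by
  rw [← Finsupp.range_linearCombination] at h
  have h1 := Submodule.dense_iff_topologicalClosure_eq_top.2 h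
  exact h1

lemma norm_lc_b {ι E : Type} [NormedAddCommGroup E] [InnerProductSpace ℂ E] {v : ι → E}
    (hv : Orthonormal ℂ v) (c : ι →₀ ℂ) :
    ‖Finsupp.linearCombination ℂ v c‖ ^ 2 = ∑ i ∈ c.support, ‖c i‖ ^ 2 := by
  rw [Finsupp.linearCombination_apply, Finsupp.sum]
  have h1 := hv.inner_sum c c c.support
  rw [inner_self_eq_norm_sq_to_K] at h1
  have h2 : (((‖∑ i ∈ c.support, c i • v i‖ ^ 2 : ℝ)) : ℂ) =
      ((∑ i ∈ c.support, ‖c i‖ ^ 2 : ℝ) : ℂ) := by
    push_cast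
    refine h1.trans ?_
    refine Finset.sum_congr rfl fun i _ => ?_
    rw [Complex.conj_mul']
  exact_mod_cast h2

theorem t_RIE : S_RIE := by
  intro ι E H _ _ _ _ _ _ b h hR
  obtain ⟨hd, A, B, hA, hAB⟩ := hR
  have d1 := dense_lc (fun i => b i) b.dense_span
  have d2 := dense_lc h hd
  have n1 : ∃ C : ℝ, ∀ x : ι →₀ ℂ, ‖Finsupp.linearCombination ℂ h
      ((LinearEquiv.refl ℂ (ι →₀ ℂ)) x)‖ ≤ C * ‖Finsupp.linearCombination ℂ (fun i => b i) x‖ := by
    refine ⟨Real.sqrt (max B 0), fun x => ?_⟩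
    have h1 := (hAB x).2
    have h2 := norm_lc_b b.orthonormal x
    rw [← h2] at h1
    have h3 : ‖Finsupp.linearCombination ℂ h x‖ ^ 2 ≤
        (Real.sqrt (max B 0) * ‖Finsupp.linearCombination ℂ (fun i => b i) x‖) ^ 2 := by
      rw [mul_pow, Real.sq_sqrt (le_max_right _ _)]
      refine le_trans ?_ (mul_le_mul_of_nonneg_right (le_max_left B 0) (sq_nonneg _))
      rw [Finsupp.linearCombination_apply, Finsupp.sum]
      exact h1
    exact le_of_sq_le_sq h3 (by positivity)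
  have n2 : ∃ C : ℝ, ∀ x : ι →₀ ℂ, ‖Finsupp.linearCombination ℂ (fun i => b i)
      ((LinearEquiv.refl ℂ (ι →₀ ℂ)).symm x)‖ ≤ C * ‖Finsupp.linearCombination ℂ h x‖ := by
    refine ⟨Real.sqrt (A⁻¹), fun x => ?_⟩
    have h1 := (hAB x).1
    have h2 := norm_lc_b b.orthonormal x
    rw [← h2] at h1
    have h3 : ‖Finsupp.linearCombination ℂ (fun i => b i) x‖ ^ 2 ≤
        (Real.sqrt (A⁻¹) * ‖Finsupp.linearCombination ℂ h x‖) ^ 2 := by
      rw [mul_pow, Real.sq_sqrt (by positivity)]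
      rw [inv_mul_eq_div, le_div_iff₀ hA, mul_comm]
      refine h1.trans (le_of_eq ?_)
      rw [Finsupp.linearCombination_apply, Finsupp.sum]
    exact le_of_sq_le_sq h3 (by positivity)
  refine ⟨(LinearEquiv.refl ℂ (ι →₀ ℂ)).extend (Finsupp.linearCombination ℂ (fun i => b i))
    (Finsupp.linearCombination ℂ h) d1 n1 d2 n2, fun i => ?_⟩
  have h1 := LinearEquiv.extend_eq (LinearEquiv.refl ℂ (ι →₀ ℂ))
    (Finsupp.linearCombination ℂ (fun i => b i)) (Finsupp.linearCombination ℂ h) d1 n1 d2 n2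
    (Finsupp.single i 1)
  simpa using h1

end Pool.Agent.Q137.BL
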