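import Pool.Agent.Q137.BL.MOD

/-! # Project BL: SER -/

set_option autoImplicit false

open MeasureTheory Complex Filter Topology
open scoped ENNReal

noncomputable section

namespace Pool.Agent.Q137.BL

open Q83.BL

lemma ex_zero : ex 0 = 1 := by
  unfold ex
  simp

lemma fourier_ex (n : ℤ) (x : ℝ) : fourier n (x : AddCircle (1 : ℝ)) = ex ((n : ℝ) * x) := by
  rw [fourier_coe_apply]
  unfold ex
  congr 1
  push_cast
  ring

/-- the Fourier series of the second Bernoulli function -/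
lemma bern (x : ℝ) (hx : x ∈ Set.Icc (0 : ℝ) 1) :
    HasSum (fun n : ℤ => 1 / (n : ℂ) ^ 2 * ex ((n : ℝ) * x))
      (2 * (Real.pi : ℂ) ^ 2 * ((x ^ 2 - x + 6⁻¹ : ℝ) : ℂ)) := by
  have h := hasSum_one_div_pow_mul_fourier_mul_bernoulliFun (k := 2) le_rfl hx
  have e2 : (-(2 * (Real.pi : ℂ) * I) ^ 2 / ((Nat.factorial 2 : ℕ) : ℂ) * (bernoulliFun 2 x : ℂ)) =
      2 * (Real.pi : ℂ) ^ 2 * ((x ^ 2 - x + 6⁻¹ : ℝ) : ℂ) := by
    rw [bernoulliFun_two]
    have : (2 * (Real.pi : ℂ) * I) ^ 2 = -(4 * (Real.pi : ℂ) ^ 2) := by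
      rw [mul_pow, I_sq]
      ring
    rw [this]
    simp only [Nat.factorial, Nat.succ_eq_add_one]
    push_cast
    ring
  rw [e2] at h
  exact h.congr_fun fun n => by rw [fourier_ex]

/-- the coefficients -/
def cc (R : ℝ) (n : ℤ) : ℂ :=
  4 * R * I / Real.pi * (1 / (n : ℂ) ^ 2 * (ex ((n : ℝ) * (1 / 2)) - 1) * ex ((n : ℝ) * (1 / 4)))

/-- the frequencies -/
def tt (R : ℝ) (n : ℤ) : ℝ := n / (4 * R)

lemma cc_summable (R : ℝ) : Summable fun n : ℤ => ‖cc R n‖ := by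
  have h1 : Summable fun n : ℤ => ‖(4 * R * I / Real.pi : ℂ)‖ * (2 * (1 / (n : ℝ) ^ 2)) :=
    ((Real.summable_one_div_int_pow.2 one_lt_two).mul_left 2).mul_left _
  refine Summable.of_nonneg_of_le (fun _ => norm_nonneg _) (fun n => ?_) h1
  unfold cc
  rw [norm_mul]
  refine mul_le_mul_of_nonneg_left ?_ (norm_nonneg _)
  rw [norm_mul, norm_mul, norm_ex, mul_one, norm_div, norm_one, norm_pow]
  have h2 : ‖(n : ℂ)‖ ^ 2 = (n : ℝ) ^ 2 := by
    rw [Complex.norm_intCast, sq_abs]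
  rw [h2, mul_comm]
  exact mul_le_mul_of_nonneg_right (norm_ex_sub_one' _) (by positivity)

lemma cc_hasSum {R : ℝ} (hR : 0 < R) (y : ℝ) (hy : |y| ≤ R) :
    HasSum (fun n : ℤ => cc R n * ex (tt R n * y)) (2 * Real.pi * I * (y : ℂ)) := by
  obtain ⟨x, hx⟩ : ∃ x : ℝ, x = 1 / 4 + y / (4 * R) := ⟨_, rfl⟩
  rw [abs_le] at hy
  have h1 : -(1 / 4 : ℝ) ≤ y / (4 * R) := by
    rw [le_div_iff₀ (by positivity)]
    linarith
  have h2 : y / (4 * R) ≤ 1 / 4 := by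
    rw [div_le_iff₀ (by positivity)]
    linarith
  have h3 := bern x ⟨by rw [hx]; linarith, by rw [hx]; linarith⟩
  have h4 := bern (x + 1 / 2) ⟨by rw [hx]; linarith, by rw [hx]; linarith⟩
  have h5 := (h4.sub h3).mul_left (4 * R * I / Real.pi : ℂ)
  have hpi : (Real.pi : ℂ) ≠ 0 := by
    exact_mod_cast Real.pi_ne_zero
  have hRC : (R : ℂ) ≠ 0 := by exact_mod_cast hR.ne'
  have e1 : (4 * R * I / Real.pi : ℂ) * (2 * (Real.pi : ℂ) ^ 2 *
      ((((x + 1 / 2) ^ 2 - (x + 1 / 2) + 6⁻¹ : ℝ)) : ℂ) -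
      2 * (Real.pi : ℂ) ^ 2 * ((x ^ 2 - x + 6⁻¹ : ℝ) : ℂ)) = 2 * Real.pi * I * (y : ℂ) := by
    rw [hx]
    push_cast
    field_simp
    ring
  rw [e1] at h5
  refine h5.congr_fun fun n => ?_
  unfold cc tt
  have e2 : ex ((n : ℝ) * (x + 1 / 2)) = ex ((n : ℝ) * (1 / 2)) * ex ((n : ℝ) * (1 / 4)) *
      ex ((n : ℝ) / (4 * R) * y) := by
    rw [← ex_add, ← ex_add]
    congr 1
    rw [hx]
    ring
  have e3 : ex ((n : ℝ) * x) = ex ((n : ℝ) * (1 / 4)) * ex ((n : ℝ) / (4 * R) * y) := by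
    rw [← ex_add]
    congr 1
    rw [hx]
    ring
  rw [e2, e3]
  ring

lemma tf_norm_le {l : ℕ} (k : Fin l) (c : ℝ) (f : HH l) :
    ‖tf 0 (EuclideanSpace.single k c) f‖ ≤ ‖f‖ := by
  refine Lp.norm_le_norm_of_ae_le ?_
  filter_upwards [tf_single k c f] with x hx
  rw [hx, norm_mul, norm_ex, one_mul]

/-- the sum of a series of modulations -/
lemma series_eq {l : ℕ} (k : Fin l) (f G : HH l) (c : ℕ → ℂ) (θ : ℕ → ℝ)
    (h : HasSum (fun j => c j • tf 0 (EuclideanSpace.single k (θ j)) f) G) (φ : X l → ℂ)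
    (hφ : ∀ᵐ x : X l, HasSum (fun j => c j * ex (θ j * x k) * f x) (φ x)) :
    G =ᵐ[volume] φ := by
  have h1 := (tendstoInMeasure_of_tendsto_Lp h.tendsto_sum_nat).exists_seq_tendsto_ae
  obtain ⟨ns, hns, h2⟩ := h1
  have h3 : ∀ᵐ x : X l, ∀ n : ℕ,
      (∑ j ∈ Finset.range n, c j • tf 0 (EuclideanSpace.single k (θ j)) f : HH l) x =
      ∑ j ∈ Finset.range n, c j * ex (θ j * x k) * f x := by
    rw [ae_all_iff]
    intro n
    induction n with
    | zero =>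
      filter_upwards [Lp.coeFn_zero ℂ 2 (volume : Measure (X l))] with x hx
      simp only [Finset.range_zero, Finset.sum_empty]
      exact hx
    | succ n ih =>
      filter_upwards [ih, Lp.coeFn_add
        (∑ j ∈ Finset.range n, c j • tf 0 (EuclideanSpace.single k (θ j)) f)
        (c n • tf 0 (EuclideanSpace.single k (θ n)) f),
        Lp.coeFn_smul (c n) (tf 0 (EuclideanSpace.single k (θ n)) f),
        tf_single k (θ n) f] with x a1 a2 a3 a4
      rw [Finset.sum_range_succ, Finset.sum_range_succ, a2, Pi.add_apply, a1, a3, Pi.smul_apply,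
        a4, smul_eq_mul, mul_assoc (c n)]
  filter_upwards [h2, h3, hφ] with x a1 a2 a3
  have a4 : Tendsto (fun i => ∑ j ∈ Finset.range (ns i), c j * ex (θ j * x k) * f x) atTop
      (𝓝 (φ x)) := a3.tendsto_sum_nat.comp hns.tendsto_atTop
  exact tendsto_nhds_unique (a1.congr fun i => a2 (ns i)) a4

lemma second_order (t : ℝ) : ‖exp ((t : ℂ) * I) - 1 - (t : ℂ) * I‖ ≤ 3 * t ^ 2 := by
  have hn : ‖(t : ℂ) * I‖ = |t| := by
    rw [norm_mul, Complex.norm_I, mul_one, Complex.norm_real, Real.norm_eq_abs]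
  rcases le_or_gt |t| 1 with h | h
  · have h1 := Complex.norm_exp_sub_one_sub_id_le (x := (t : ℂ) * I) (by rw [hn]; exact h)
    rw [hn, sq_abs] at h1
    nlinarith [sq_nonneg t]
  · have h1 : ‖exp ((t : ℂ) * I) - 1 - (t : ℂ) * I‖ ≤ 1 + 1 + |t| := by
      refine (norm_sub_le _ _).trans (add_le_add ((norm_sub_le _ _).trans ?_) hn.le)
      rw [Complex.norm_exp_ofReal_mul_I, norm_one]
    have h2 : |t| ^ 2 = t ^ 2 := sq_abs t
    nlinarith

theorem t_SER : S_SER := by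
  intro l k f R₀ hsupp₀
  obtain ⟨R, hR, hsupp⟩ : ∃ R : ℝ, 0 < R ∧ ∀ᵐ x : X l, R < ‖x‖ → f x = 0 := by
    refine ⟨max R₀ 1, lt_of_lt_of_le zero_lt_one (le_max_right _ _), ?_⟩
    filter_upwards [hsupp₀] with x hx h
    exact hx (lt_of_le_of_lt (le_max_left _ _) h)
  obtain ⟨eq⟩ : Nonempty (ℕ ≃ ℤ) := ⟨(Denumerable.eqv ℤ).symm⟩
  obtain ⟨c, hc⟩ : ∃ c : ℕ → ℂ, ∀ j, c j = cc R (eq j) := ⟨_, fun _ => rfl⟩
  obtain ⟨θ, hθ⟩ : ∃ θ : ℕ → ℝ, ∀ j, θ j = tt R (eq j) := ⟨_, fun _ => rfl⟩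
  have hcs : Summable fun j => ‖c j‖ := by
    simp only [hc]
    exact (eq.summable_iff (f := fun n : ℤ => ‖cc R n‖)).2 (cc_summable R)
  have hsum : ∀ y : ℝ, |y| ≤ R → HasSum (fun j => c j * ex (θ j * y)) (2 * Real.pi * I * (y : ℂ)) := by
    intro y hy
    simp only [hc, hθ]
    exact (eq.hasSum_iff (f := fun n : ℤ => cc R n * ex (tt R n * y))).2 (cc_hasSum hR y hy)
  have hS : Summable fun j => c j • tf 0 (EuclideanSpace.single k (θ j)) f := by
    refine Summable.of_norm_bounded (hcs.mul_right ‖f‖) fun j => ?_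
    rw [norm_smul]
    exact mul_le_mul_of_nonneg_left (tf_norm_le k (θ j) f) (norm_nonneg _)
  obtain ⟨F, hF⟩ := hS
  have hxk : ∀ x : X l, |x k| ≤ ‖x‖ := fun x => by
    have := PiLp.norm_apply_le x k
    rwa [Real.norm_eq_abs] at this
  have hFe : F =ᵐ[volume] fun x => 2 * Real.pi * I * ((x k : ℝ) : ℂ) * f x := by
    refine series_eq k f F c θ hF _ ?_
    filter_upwards [hsupp] with x hx
    by_cases h : R < ‖x‖
    · rw [hx h]
      simp only [mul_zero]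
      exact hasSum_zero
    · exact (hsum (x k) ((hxk x).trans (not_lt.1 h))).mul_right (f x)
  refine ⟨F, c, θ, 3 * (2 * Real.pi * R) ^ 2 * ‖f‖, hcs, hF, fun s => ?_⟩
  have h1 : ‖tf 0 (EuclideanSpace.single k s) f - f - (s : ℂ) • F‖ ≤
      (3 * (2 * Real.pi * R) ^ 2 * s ^ 2) * ‖f‖ := by
    refine Lp.norm_le_mul_norm_of_ae_le_mul ?_
    filter_upwards [Lp.coeFn_sub (tf 0 (EuclideanSpace.single k s) f - f) ((s : ℂ) • F),
      Lp.coeFn_sub (tf 0 (EuclideanSpace.single k s) f) f, Lp.coeFn_smul (s : ℂ) F,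
      tf_single k s f, hFe, hsupp] with x a1 a2 a3 a4 a5 a6
    rw [a1, Pi.sub_apply, a2, Pi.sub_apply, a3, Pi.smul_apply, a4, a5, smul_eq_mul]
    by_cases h : R < ‖x‖
    · rw [a6 h]
      simp
    · have hx2 : |x k| ≤ R := (hxk x).trans (not_lt.1 h)
      have e1 : ex (s * x k) * f x - f x - (s : ℂ) * (2 * Real.pi * I * ((x k : ℝ) : ℂ) * f x) =
          (exp (((2 * Real.pi * (s * x k) : ℝ) : ℂ) * I) - 1 -
            ((2 * Real.pi * (s * x k) : ℝ) : ℂ) * I) * f x := by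
        rw [ex_eq]
        push_cast
        ring
      rw [e1, norm_mul]
      refine mul_le_mul_of_nonneg_right ((second_order _).trans ?_) (norm_nonneg _)
      have e2 : (x k) ^ 2 ≤ R ^ 2 := sq_le_sq' (by linarith [(abs_le.1 hx2).1]) (abs_le.1 hx2).2
      have e3 : 3 * (2 * Real.pi * (s * x k)) ^ 2 = 3 * (2 * Real.pi) ^ 2 * s ^ 2 * (x k) ^ 2 := by
        ring
      have e4 : 3 * (2 * Real.pi * R) ^ 2 * s ^ 2 = 3 * (2 * Real.pi) ^ 2 * s ^ 2 * R ^ 2 := by ring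
      rw [e3, e4]
      exact mul_le_mul_of_nonneg_left e2 (by positivity)
  refine h1.trans (le_of_eq ?_)
  ring

end Pool.Agent.Q137.BL
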